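import Pool.Agent.SGK.Stmts

/-! # SGK row RST: exchange of the lower part of a sequence -/

noncomputable section

namespace Pool.Agent.SGK.H32

open Pool.Agent.SGE Pool.Agent.SGK

theorem rst (hDet : DetStmt) : RstStmt := by
  intro V a b C₁ S₁ S₂ h₁ h₂ T
  induction T with
  | nil =>
    intro C h _
    have e : C = C₁ := hDet h h₁
    subst e
    exact h₂
  | cons y T ih =>
    intro C h hT
    obtain ⟨x, ℓ⟩ := y
    rw [List.cons_append] at h
    cases h with
    | @step P Q mid p q _ _ h ha hb hv =>
      have h2 := ih _ h (fun y hy => hT y (List.mem_cons_of_mem _ hy))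
      refine Can.step h2 ha hb ?_
      intro y hy
      have hy' : y ∈ T ++ S₂ := hy
      rcases List.mem_append.1 hy' with hy | hy
      · exact hv y (List.mem_append_left _ hy)
      · exact (hT _ List.mem_cons_self y hy).symm

end Pool.Agent.SGK.H32
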